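import Mathlib

set_option autoImplicit false

namespace Pool.Agent.Results.MP_201e5f_co.Counter

open Finset

variable {V E : Type} [Fintype V] [DecidableEq V] [Fintype E]

/-- Edge `e` has ends `s e`, `t e`; `f e` (`b e`) says that the arc `s e → t e` (`t e → s e`) is in `D`. -/
def Arc (s t : E → V) (f b : E → Bool) (u v : V) : Prop :=
  ∃ e, (f e = true ∧ s e = u ∧ t e = v) ∨ (b e = true ∧ t e = u ∧ s e = v)

def outDeg (s t : E → V) (f b : E → Bool) (v : V) : ℕ :=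
  (univ.filter fun e => f e = true ∧ s e = v).card + (univ.filter fun e => b e = true ∧ t e = v).card

def KernelPerfect (s t : E → V) (f b : E → Bool) : Prop :=
  ∀ S : Finset V, ∃ U ⊆ S, (∀ u ∈ U, ∀ v ∈ U, ¬ Arc s t f b u v) ∧
    ∀ v ∈ S, v ∉ U → ∃ u ∈ U, Arc s t f b v u

/-- `C e` is a matching between the lists of the two ends of `e`. -/
def IsCorr (s t : E → V) (L : V → Finset ℕ) (C : E → Finset (ℕ × ℕ)) : Prop :=
  ∀ e, ∀ p ∈ C e, p.1 ∈ L (s e) ∧ p.2 ∈ L (t e) ∧ ∀ q ∈ C e, (p.1 = q.1 ↔ p.2 = q.2)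

def Twisted (C : E → Finset (ℕ × ℕ)) (e : E) : Prop := ∃ p ∈ C e, p.1 ≠ p.2

theorem result : ¬ ∀ (V E : Type) [Fintype V] [DecidableEq V] [Fintype E] (s t : E → V)
    (f b : E → Bool) (L : V → Finset ℕ) (C : E → Finset (ℕ × ℕ)),
    (∀ e, s e ≠ t e) → (∀ e, f e = true ∨ b e = true) → KernelPerfect s t f b → IsCorr s t L C →
    (∀ e, Twisted C e → ∀ c, (c, c) ∉ C e) → (∀ e, Twisted C e → f e = true ∧ b e = true) →
    (∀ v, outDeg s t f b v + 1 ≤ (L v).card) →
    ∃ φ : V → ℕ, (∀ v, φ v ∈ L v) ∧ ∀ e, (φ (s e), φ (t e)) ∉ C e := by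
  intro h
  obtain ⟨φ, h1, h2⟩ := h (Fin 3) (Fin 3 × Bool) (fun e => e.1) (fun e => e.1 + 1) (fun _ => true)
    (fun e => e.2) (fun _ => range 4)
    (fun e => if e.2 then {(0, 3), (1, 2), (2, 1), (3, 0)} else {(0, 0), (1, 1), (2, 2), (3, 3)})
    (by decide) (by decide) (fun S => by
      have hA : ∀ u v : Fin 3, Arc (fun e : Fin 3 × Bool => e.1) (fun e => e.1 + 1) (fun _ => true)
          (fun e => e.2) u v ↔ u ≠ v := by unfold Arc; decide +kernel
      simp only [hA]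
      rcases S.eq_empty_or_nonempty with rfl | ⟨x, hx⟩
      · exact ⟨∅, by simp⟩
      · exact ⟨{x}, by simpa using hx, by simp, by simp⟩)
    (by unfold IsCorr; decide +kernel)
    (by
      rintro ⟨i, _ | _⟩ h c hc
      · simp [Twisted] at h
      · simp only [if_true, mem_insert, mem_singleton, Prod.mk.injEq] at hc
        omega)
    (by unfold Twisted; decide +kernel) (by unfold outDeg; decide +kernel)
  have key : ∀ x ∈ range 4, ∀ y ∈ range 4, ∀ z ∈ range 4, ∃ e : Fin 3 × Bool,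
      ((![x, y, z] : Fin 3 → ℕ) e.1, (![x, y, z] : Fin 3 → ℕ) (e.1 + 1)) ∈
        (if e.2 then {(0, 3), (1, 2), (2, 1), (3, 0)} else {(0, 0), (1, 1), (2, 2), (3, 3)} :
          Finset (ℕ × ℕ)) := by decide +kernel
  obtain ⟨e, he⟩ := key _ (h1 0) _ (h1 1) _ (h1 2)
  have : ![φ 0, φ 1, φ 2] = φ := by funext i; fin_cases i <;> rfl
  rw [this] at he
  exact h2 e he

end Pool.Agent.Results.MP_201e5f_co.Counter
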